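import Pool.Agent.UL5.Stmts

/-! Row CGD of squad UL5: the cone is good. -/

set_option autoImplicit false

namespace Pool.Agent.UL5.H38

open MeasureTheory Set Pool.Agent.UL3 Pool.Agent.UL4 Pool.Agent.UL5

/-- the midpoint of an interior point and a point of a convex set is interior -/
theorem half_int {D : Set E3} (hD : Convex ℝ D) {x y : E3} (hx : x ∈ interior D)
    (hy : y ∈ D) : (1 / 2 : ℝ) • x + (1 / 2 : ℝ) • y ∈ interior D :=
  hD.combo_interior_self_mem_interior hx hy (by norm_num) (by norm_num) (by norm_num)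

theorem cgd (hSEL : SelStmt) (hLAT : LatStmt) (hDCB : DcbStmt) : CgdStmt := by
  intro C hC
  obtain ⟨u, q, hu, hui, h1, h2, h3⟩ := hSEL C hC
  obtain ⟨v, hv0, hadm, hdt⟩ := hLAT C u q hC hu hui h1 h2 h3
  obtain ⟨hSB, hCB, hsub, hV, h0⟩ := hDCB C hC
  have hint : interior (con C) ⊆ interior (dco C) := interior_mono hsub
  refine ⟨v, 0, hv0, ?_, ?_, ?_⟩
  · intro n hn
    rw [Set.disjoint_left]
    rintro y hy ⟨x, hx, hxy⟩
    apply hadm n hn
    have h5 : -x ∈ dco C := hSB.sym x (interior_subset (hint hx))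
    have h6 := half_int hSB.cvx (hint hy) h5
    have h7 : (1 / 2 : ℝ) • y + (1 / 2 : ℝ) • (-x) = ∑ i, (n i : ℝ) • v i := by
      rw [← hxy]
      simp only [smul_add, smul_smul, smul_neg]
      norm_num
    rwa [h7] at h6
  · intro n hcon
    rw [zero_add] at hcon
    by_cases hn : n = 0
    · apply h0
      rw [hn] at hcon
      simpa using hcon
    · exact hadm n hn (hint hcon)
  · rw [hdt, hV]
    linarith

end Pool.Agent.UL5.H38
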